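import Pool.Agent.N733.TG.K
import Pool.Agent.Results.MP_26a8c3_nt.PositionsInWindows

/-!
# Constant below 2 in the inequality of Brun and Titchmarsh at all positions near values of multiplicative functions

Let `f` be a positive multiplicative function of at most polynomial growth such that `f p ≤ M p` for the large primes `p`,
with different values at different large primes; for example Euler's function or the sum of the divisors. Let
`1 / 2 ≤ t < 1`, `0 < η ≤ κ < t`, `c ≥ 0`, `δ₀ < 2 - 2 κ / t`, and let `G` have steps bounded below by a positive constant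
and growth at most `v ^ d`, for example `G v = α v ^ d`. If `d (2 t - η + 2 c) + θ < 1`, then for all `m ≤ N` but
`N / (log N) ^ U` the inequality `N(x, y; k, l) < (2 - δ₀) y / (φ(k) log (y / k))` holds for ALL `k`, `l`, `x`, `y`
with `z = (x - y) / k` within `f(m) ^ θ` of `G (f m)`, `k ≤ z ^ c` and `z ^ η ≤ y / k ≤ z ^ κ`.

The positions `z` where it fails are few (starting theorem `PositionsInWindows`, here for all scales at once), and the
values `f m` avoid such sets (tool `N733/TG` of helper733), though they are taken with very large multiplicities.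
-/

set_option autoImplicit false

open Finset Filter

namespace Pool.Agent.Results.MP_26a8c3_nt.MultiplicativeValues

open Pool.Agent.N733.TG (LM Expanding lm_totient lm_sigma keep_windows expanding_pow)
open AlmostAllPositions (primeCount)
open PositionsInWindows (N N_le primeCount_mono Bad count)

/-- the exceptional positions at all scales -/
def S (t η c δ ρ : ℝ) (M₀ : ℕ) : Set ℕ :=
  {M : ℕ | M ≤ M₀ ∨ M ∈ Bad t η c δ ρ ((2 : ℝ) ^ (Nat.log 2 M + 1))}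

open Classical in
lemma countS (t η c δ ρ : ℝ) (ht1 : 1 / 2 ≤ t) (ht : t < 1) (hη : η ≤ 2 * t) (hc : 0 ≤ c) (hδ : 0 < δ) (hρ : 1 < ρ)
    (M₀ : ℕ) (ε : ℝ) (hε : 0 < ε) : ∃ C : ℝ, ∀ X : ℝ, 1 ≤ X →
      {M : ℕ | M ∈ S t η c δ ρ M₀ ∧ (M : ℝ) / 2 ≤ X}.Finite ∧
      ({M : ℕ | M ∈ S t η c δ ρ M₀ ∧ (M : ℝ) / 2 ≤ X}.ncard : ℝ) ≤ C * X ^ (2 * t - η + 2 * c + ε) := by
  obtain ⟨C, v₀, hC⟩ := count t η c δ ρ ht1 ht hc hδ hρ 0 (ε / 2) (by positivity)
  obtain ⟨s, hs⟩ : ∃ s, s = 2 * t - η + 2 * c := ⟨_, rfl⟩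
  have hs0 : 0 ≤ s := by rw [hs]; linarith
  rw [← hs] at hC
  rw [← hs]
  obtain ⟨K₀, hK₀⟩ : ∃ K₀ : ℕ, K₀ = max M₀ ⌈v₀⌉₊ := ⟨_, rfl⟩
  refine ⟨((K₀ : ℝ) + 1) + (2 + 4 / ε) * (|C| * 4 ^ (s + ε / 2)), fun X hX => ?_⟩
  have hX0 : 0 < X := by linarith
  obtain ⟨n, hn⟩ : ∃ n : ℕ, n = ⌊2 * X⌋₊ := ⟨_, rfl⟩
  have hn2 : 2 ≤ n := by rw [hn]; exact Nat.le_floor (by push_cast; linarith)
  have hnX : (n : ℝ) ≤ 2 * X := by rw [hn]; exact Nat.floor_le (by linarith)
  obtain ⟨L, hL⟩ : ∃ L : ℕ, L = Nat.log 2 n := ⟨_, rfl⟩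
  have hLn : 2 ^ L ≤ n := by rw [hL]; exact Nat.pow_log_le_self 2 (by omega)
  obtain ⟨B, hB⟩ : ∃ B : ℕ → Finset ℕ, B = fun i : ℕ => if h : v₀ ≤ (2 : ℝ) ^ (i + 1) then
    (hC _ h).1.toFinset else ∅ := ⟨_, rfl⟩
  have hBc : ∀ i ∈ range (L + 1), ((B i).card : ℝ) ≤ |C| * (4 * X) ^ (s + ε / 2) := by
    intro i hi
    rw [mem_range] at hi
    have h0 : (0 : ℝ) ≤ |C| * (4 * X) ^ (s + ε / 2) := by positivity
    rw [hB]
    by_cases h : v₀ ≤ (2 : ℝ) ^ (i + 1)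
    · simp only [h, dif_pos]
      rw [← Set.ncard_eq_toFinset_card _ (hC _ h).1]
      refine (hC _ h).2.trans ?_
      have h1 : ((2 : ℝ) ^ (i + 1)) ≤ 4 * X := by
        have h2 : (2 : ℝ) ^ i ≤ (2 : ℝ) ^ L := pow_le_pow_right₀ (by norm_num) (by omega)
        have h3 : (2 : ℝ) ^ L ≤ n := by exact_mod_cast hLn
        rw [pow_succ]
        linarith
      have h2 : ((2 : ℝ) ^ (i + 1)) ^ (s + ε / 2) ≤ (4 * X) ^ (s + ε / 2) :=
        Real.rpow_le_rpow (by positivity) h1 (by positivity)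
      calc C * ((2 : ℝ) ^ (i + 1)) ^ (s + ε / 2) ≤ |C| * ((2 : ℝ) ^ (i + 1)) ^ (s + ε / 2) :=
            mul_le_mul_of_nonneg_right (le_abs_self _) (by positivity)
        _ ≤ _ := mul_le_mul_of_nonneg_left h2 (abs_nonneg _)
    · simp only [h, dif_neg, not_false_eq_true, card_empty, Nat.cast_zero]
      exact h0
  have hsub : {M : ℕ | M ∈ S t η c δ ρ M₀ ∧ (M : ℝ) / 2 ≤ X} ⊆
      (Iic K₀ ∪ (range (L + 1)).biUnion B : Finset ℕ) := by
    rintro M ⟨hM, hMX⟩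
    rw [mem_coe, mem_union, mem_Iic]
    by_cases hMK : M ≤ K₀
    · left; exact hMK
    · right
      push Not at hMK
      have hM0 : M₀ < M := lt_of_le_of_lt (by rw [hK₀]; exact le_max_left _ _) hMK
      have hMv : ⌈v₀⌉₊ < M := lt_of_le_of_lt (by rw [hK₀]; exact le_max_right _ _) hMK
      have hbad : M ∈ Bad t η c δ ρ ((2 : ℝ) ^ (Nat.log 2 M + 1)) := by
        rcases hM with h | h
        · omega
        · exact h
      have hM1 : M ≠ 0 := by omega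
      have hlt : M < 2 ^ (Nat.log 2 M + 1) := Nat.lt_pow_succ_log_self (by norm_num) M
      have hlt' : (M : ℝ) < (2 : ℝ) ^ (Nat.log 2 M + 1) := by exact_mod_cast hlt
      have hMn : M ≤ n := by
        rw [hn]
        exact Nat.le_floor (by linarith)
      rw [mem_biUnion]
      refine ⟨Nat.log 2 M, ?_, ?_⟩
      · rw [mem_range, hL]
        exact Nat.lt_succ_of_le (Nat.log_mono_right hMn)
      · have hv : v₀ ≤ (2 : ℝ) ^ (Nat.log 2 M + 1) := by
          have h1 : v₀ ≤ (⌈v₀⌉₊ : ℝ) := Nat.le_ceil _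
          have h2 : (⌈v₀⌉₊ : ℝ) ≤ M := by exact_mod_cast hMv.le
          linarith
        rw [hB]
        simp only [hv, dif_pos, Set.Finite.mem_toFinset, Set.mem_ofPred_eq]
        refine ⟨hbad, ?_⟩
        push_cast
        linarith
  refine ⟨(Finset.finite_toSet _).subset hsub, ?_⟩
  have h1 := Set.ncard_le_ncard hsub (Finset.finite_toSet _)
  rw [Set.ncard_coe_finset] at h1
  have h2 : ((Iic K₀ ∪ (range (L + 1)).biUnion B : Finset ℕ).card : ℝ) ≤
      ((K₀ : ℝ) + 1) + ((L : ℝ) + 1) * (|C| * (4 * X) ^ (s + ε / 2)) := by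
    have h3 : ((Iic K₀ ∪ (range (L + 1)).biUnion B : Finset ℕ).card : ℝ) ≤
        ((Iic K₀).card : ℝ) + ((range (L + 1)).biUnion B).card := by exact_mod_cast card_union_le _ _
    have h4 : (((range (L + 1)).biUnion B).card : ℝ) ≤ ∑ i ∈ range (L + 1), ((B i).card : ℝ) := by
      exact_mod_cast card_biUnion_le
    have h5 := sum_le_sum hBc
    rw [sum_const, card_range, nsmul_eq_mul] at h5
    push_cast at h5
    have h6 : ((Iic K₀).card : ℝ) = (K₀ : ℝ) + 1 := by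
      rw [Nat.card_Iic]
      push_cast
      ring
    linarith
  have hL1 : (L : ℝ) + 1 ≤ (2 + 4 / ε) * X ^ (ε / 2) := by
    have h3 : (2 : ℝ) ^ L ≤ 2 * X := by
      have : ((2 : ℝ)) ^ L ≤ n := by exact_mod_cast hLn
      linarith
    have h4 := Real.log_le_log (by positivity) h3
    rw [Real.log_pow, Real.log_mul (by norm_num) (by linarith)] at h4
    have h5 : Real.log X ≤ X ^ (ε / 2) / (ε / 2) := Real.log_le_rpow_div hX0.le (by positivity)
    have h6 : (1 : ℝ) ≤ X ^ (ε / 2) := Real.one_le_rpow hX (by positivity)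
    have h7 : 1 / 2 < Real.log 2 := by linarith [Real.log_two_gt_d9]
    have h8 : 0 ≤ Real.log X := Real.log_nonneg hX
    have h9 : (L : ℝ) ≤ 1 + 2 * Real.log X := by
      by_contra hcon
      push Not at hcon
      have h10 : (1 + 2 * Real.log X) * Real.log 2 < L * Real.log 2 :=
        mul_lt_mul_of_pos_right hcon (by linarith)
      nlinarith
    have h10 : 2 * (X ^ (ε / 2) / (ε / 2)) = 4 / ε * X ^ (ε / 2) := by
      field_simp
      ring
    nlinarith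
  have h3 : (1 : ℝ) ≤ X ^ (s + ε) := Real.one_le_rpow hX (by positivity)
  have h4 : X ^ (ε / 2) * (4 * X) ^ (s + ε / 2) = 4 ^ (s + ε / 2) * X ^ (s + ε) := by
    rw [Real.mul_rpow (by norm_num) hX0.le]
    have : X ^ (s + ε) = X ^ (ε / 2) * X ^ (s + ε / 2) := by
      rw [← Real.rpow_add hX0]
      congr 1
      ring
    rw [this]
    ring
  calc ({M : ℕ | M ∈ S t η c δ ρ M₀ ∧ (M : ℝ) / 2 ≤ X}.ncard : ℝ)
      ≤ ((Iic K₀ ∪ (range (L + 1)).biUnion B : Finset ℕ).card : ℝ) := by exact_mod_cast h1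
    _ ≤ ((K₀ : ℝ) + 1) + ((L : ℝ) + 1) * (|C| * (4 * X) ^ (s + ε / 2)) := h2
    _ ≤ ((K₀ : ℝ) + 1) * X ^ (s + ε) + ((2 + 4 / ε) * X ^ (ε / 2)) * (|C| * (4 * X) ^ (s + ε / 2)) := by
        apply add_le_add
        · exact le_mul_of_one_le_right (by positivity) h3
        · exact mul_le_mul_of_nonneg_right hL1 (by positivity)
    _ = ((K₀ : ℝ) + 1) * X ^ (s + ε) + (2 + 4 / ε) * |C| * (X ^ (ε / 2) * (4 * X) ^ (s + ε / 2)) := by ring
    _ = _ := by
        rw [h4]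
        ring

/-- the inequality at the positions which are not exceptional -/
lemma main_ineq (t η η₁ κ c δ₀ : ℝ) (ht1 : 1 / 2 ≤ t) (ht : t < 1) (hη₁ : 0 < η₁) (hη : η₁ < η) (hηκ : η ≤ κ)
    (hκ : κ < t) (hc : 0 ≤ c) (hδ₀ : δ₀ < 2 - 2 * κ / t) : ∃ (δ ρ : ℝ) (M₀ : ℕ), 0 < δ ∧ 1 < ρ ∧
      ∀ (k : ℕ) (l : ℤ) (x y : ℝ), 1 ≤ k → y ≤ x → ⌊(x - y) / k⌋₊ ∉ S t η₁ c δ ρ M₀ →
        (k : ℝ) ≤ ((x - y) / k) ^ c → Int.gcd l k = 1 →
        ((x - y) / k) ^ η ≤ y / k → y / k ≤ ((x - y) / k) ^ κ →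
        (N x y k l : ℝ) < (2 - δ₀) * y / (Nat.totient k * Real.log (y / k)) := by
  have ht0 : 0 < t := by linarith
  have hη0 : 0 < η := by linarith
  have hκ0 : 0 < κ := by linarith
  -- the constants
  set a : ℝ := (2 - δ₀) * t / (2 * κ) with ha
  have ha1 : 1 < a := by
    rw [ha, lt_div_iff₀ (by positivity)]
    have h1 : 2 * κ / t < 2 - δ₀ := by linarith
    rw [div_lt_iff₀ ht0] at h1
    linarith
  set β : ℝ := min 1 ((a - 1) / 8) with hβ
  have hβ0 : 0 < β := lt_min one_pos (by linarith)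
  have hβ1 : β ≤ 1 := min_le_left _ _
  have hβ2 : β ≤ (a - 1) / 8 := min_le_right _ _
  have hβ3 : (1 + β) ^ 3 < a := by
    have h1 : 0 ≤ β * (1 - β) := mul_nonneg hβ0.le (sub_nonneg.2 hβ1)
    have h2 : 0 ≤ β * β * (1 - β) := mul_nonneg (mul_nonneg hβ0.le hβ0.le) (sub_nonneg.2 hβ1)
    have h3 : (1 + β) ^ 3 = 1 + 7 * β - 4 * (β * (1 - β)) - β * β * (1 - β) := by ring
    linarith
  set ρ : ℝ := 1 + β with hρ
  set δ : ℝ := β * (2 / t) with hδ
  have hδ0 : 0 < δ := by positivity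
  obtain ⟨Z1, hZ1⟩ := ((tendsto_rpow_atTop hη0).eventually (eventually_ge_atTop (5 / β + 5))).exists_forall_of_atTop
  obtain ⟨Z2, hZ2⟩ := ((tendsto_rpow_atTop (show 0 < t - κ by linarith)).eventually
    (eventually_ge_atTop (4 : ℝ))).exists_forall_of_atTop
  obtain ⟨Z3, hZ3⟩ := ((tendsto_rpow_atTop (show 0 < η - η₁ by linarith)).eventually
    (eventually_ge_atTop (2 : ℝ))).exists_forall_of_atTop
  obtain ⟨Z, hZ⟩ : ∃ Z : ℝ, Z = max (max Z1 Z2) (max Z3 3) := ⟨_, rfl⟩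
  refine ⟨δ, ρ, ⌈Z⌉₊, hδ0, by linarith, fun k l x y hk hyx hS hkc hgcd hy1 hy2 => ?_⟩
  have hk0 : (0 : ℝ) < k := by exact_mod_cast hk
  set z : ℝ := (x - y) / k with hz
  set u : ℝ := y / k with hu
  have hz0 : 0 ≤ z := div_nonneg (by linarith) hk0.le
  set M : ℕ := ⌊z⌋₊ with hM
  have hMz : (M : ℝ) ≤ z := Nat.floor_le hz0
  have hMz2 : z < (M : ℝ) + 1 := Nat.lt_floor_add_one z
  have hMS : ⌈Z⌉₊ < M ∧ M ∉ Bad t η₁ c δ ρ ((2 : ℝ) ^ (Nat.log 2 M + 1)) := by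
    constructor
    · by_contra hcon
      push Not at hcon
      exact hS (Or.inl hcon)
    · intro hcon
      exact hS (Or.inr hcon)
  obtain ⟨hMZ, hnb⟩ := hMS
  have hZM : Z ≤ M := by
    have h1 : Z ≤ (⌈Z⌉₊ : ℝ) := Nat.le_ceil _
    have h2 : (⌈Z⌉₊ : ℝ) ≤ M := by exact_mod_cast hMZ.le
    linarith
  have hzZ : Z ≤ z := hZM.trans hMz
  have hz1 : Z1 ≤ z := ((le_max_left _ _).trans (le_max_left _ _)).trans (hZ ▸ hzZ)
  have hz2 : Z2 ≤ z := ((le_max_right _ _).trans (le_max_left _ _)).trans (hZ ▸ hzZ)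
  have hz3 : Z3 ≤ z := ((le_max_left _ _).trans (le_max_right _ _)).trans (hZ ▸ hzZ)
  have hz4 : 3 ≤ z := ((le_max_right _ _).trans (le_max_right _ _)).trans (hZ ▸ hzZ)
  have hMpos : 1 ≤ M := by omega
  have hM0 : M ≠ 0 := by omega
  -- the scale
  set v : ℝ := (2 : ℝ) ^ (Nat.log 2 M + 1) with hv
  have hzv : z ≤ v := by
    have h1 : M + 1 ≤ 2 ^ (Nat.log 2 M + 1) := Nat.lt_pow_succ_log_self (by norm_num) M
    have h2 : (M : ℝ) + 1 ≤ v := by rw [hv]; exact_mod_cast h1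
    linarith
  have hvz : v ≤ 2 * z := by
    have h1 : 2 ^ Nat.log 2 M ≤ M := Nat.pow_log_le_self 2 hM0
    have h2 : (2 : ℝ) ^ Nat.log 2 M ≤ M := by exact_mod_cast h1
    rw [hv, pow_succ]
    linarith
  have hv3 : 3 ≤ v := by linarith
  have hv0 : 0 < v := by linarith
  have hu5 : 5 / β + 5 ≤ u := (hZ1 z hz1).trans hy1
  have h5β : 0 < 5 / β := by positivity
  have hu0 : 5 ≤ u := by linarith
  have hxy' : x - y = k * z := by
    rw [hz]
    field_simp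
  have hyk : y = k * u := by
    rw [hu]
    field_simp
  have hxk : x = k * (z + u) := by linarith [hxy', hyk, mul_add (k : ℝ) z u]
  -- the length
  set H : ℕ := ⌈u + 1⌉₊ with hH
  have hH1 : u + 1 ≤ H := Nat.le_ceil _
  have hH2 : (H : ℝ) < u + 1 + 1 := Nat.ceil_lt_add_one (by linarith)
  obtain ⟨j, hj1, hj2⟩ := exists_nat_pow_near (show (1 : ℝ) ≤ H by linarith) (show 1 < ρ by linarith)
  set H' : ℕ := ⌈ρ ^ (j + 1)⌉₊ with hH'
  have hHH' : H ≤ H' := by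
    have h1 : (H : ℝ) ≤ H' := hj2.le.trans (Nat.le_ceil _)
    exact_mod_cast h1
  have hH'2 : (H' : ℝ) ≤ ρ ^ 2 * u := by
    have h1 : (H' : ℝ) < ρ ^ (j + 1) + 1 := Nat.ceil_lt_add_one (by positivity)
    have h2 : ρ ^ (j + 1) = ρ * ρ ^ j := by ring
    have h3 : ρ * ρ ^ j ≤ ρ * (u + 2) := by
      apply mul_le_mul_of_nonneg_left _ (by linarith)
      linarith
    have h4 : 5 + 5 * β ≤ β * u := by
      have := mul_le_mul_of_nonneg_left hu5 hβ0.le
      have h5 : β * (5 / β + 5) = 5 + 5 * β := by field_simp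
      linarith
    have h5 : ρ ^ 2 * u = ρ * u + ρ * (β * u) := by
      rw [hρ]
      ring
    have h6 : 1 * (β * u) ≤ ρ * (β * u) := mul_le_mul_of_nonneg_right (by linarith) (by positivity)
    rw [h5]
    have h7 : ρ * (u + 2) = ρ * u + 2 * ρ := by ring
    have h8 : ρ ≤ 2 := by linarith
    linarith
  have hηH : v ^ η₁ ≤ (H' : ℝ) := by
    have h1 : (H : ℝ) ≤ H' := by exact_mod_cast hHH'
    have h2 : v ^ η₁ ≤ (2 * z) ^ η₁ := Real.rpow_le_rpow hv0.le hvz hη₁.le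
    have h3 : (2 * z) ^ η₁ = 2 ^ η₁ * z ^ η₁ := Real.mul_rpow (by norm_num) hz0
    have h4 : (2 : ℝ) ^ η₁ ≤ 2 := by
      calc (2 : ℝ) ^ η₁ ≤ (2 : ℝ) ^ (1 : ℝ) := Real.rpow_le_rpow_of_exponent_le (by norm_num) (by linarith)
        _ = 2 := Real.rpow_one 2
    have h5 : z ^ η = z ^ (η - η₁) * z ^ η₁ := by
      rw [← Real.rpow_add (by linarith)]
      congr 1
      ring
    have h6 : 2 ^ η₁ * z ^ η₁ ≤ z ^ (η - η₁) * z ^ η₁ :=
      mul_le_mul_of_nonneg_right (h4.trans (hZ3 z hz3)) (by positivity)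
    linarith
  have hHt : (H' : ℝ) ≤ v ^ t := by
    have h1 : ρ ^ 2 ≤ 4 := by nlinarith
    have h2 : v ^ t = v ^ (t - κ) * v ^ κ := by
      rw [← Real.rpow_add hv0]
      congr 1
      ring
    have h3 : u ≤ v ^ κ := hy2.trans (Real.rpow_le_rpow hz0 hzv hκ0.le)
    calc (H' : ℝ) ≤ ρ ^ 2 * u := hH'2
      _ ≤ 4 * v ^ κ := mul_le_mul h1 h3 (by linarith) (by norm_num)
      _ ≤ v ^ (t - κ) * v ^ κ :=
          mul_le_mul_of_nonneg_right (hZ2 v (hz2.trans hzv)) (Real.rpow_nonneg hv0.le _)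
      _ = v ^ t := h2.symm
  have hkv : (k : ℝ) ≤ v ^ c := hkc.trans (Real.rpow_le_rpow hz0 hzv hc)
  have hmain : (primeCount (k * (M + H')) (k * H') k l : ℝ) ≤
      (2 / t + δ) * (k * (H' : ℝ) / (Nat.totient k * Real.log v)) := by
    by_contra hcon
    push Not at hcon
    exact hnb ⟨hMpos, k, l, j + 1, hk, hkv, hgcd, hηH, hHt, hcon⟩
  have hNle : (N x y k l : ℝ) ≤ (primeCount (k * (M + H')) (k * H') k l : ℝ) := by
    have h1 : N x y k l ≤ primeCount (k * (M + H)) (k * H) k l := by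
      apply N_le
      · rw [hxy']
        exact mul_le_mul_of_nonneg_left hMz hk0.le
      · rw [hxk]
        apply mul_le_mul_of_nonneg_left _ hk0.le
        linarith
    exact_mod_cast h1.trans (primeCount_mono k l M H H' hHH')
  have hφ : (0 : ℝ) < Nat.totient k := by exact_mod_cast Nat.totient_pos.2 hk
  have hlv : 0 < Real.log v := Real.log_pos (by linarith)
  have hlu : 0 < Real.log u := Real.log_pos (by linarith)
  have hlu2 : Real.log u ≤ κ * Real.log v := by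
    have h1 := Real.log_le_log (by linarith : 0 < u) (hy2.trans (Real.rpow_le_rpow hz0 hzv hκ0.le))
    rwa [Real.log_rpow hv0] at h1
  have h2t : 2 / t + δ = 2 / t * ρ := by
    rw [hδ, hρ]
    ring
  calc (N x y k l : ℝ) ≤ (2 / t + δ) * (k * (H' : ℝ) / (Nat.totient k * Real.log v)) := hNle.trans hmain
    _ ≤ (2 / t * ρ) * (k * (ρ ^ 2 * u) / (Nat.totient k * Real.log v)) := by
        rw [h2t]
        apply mul_le_mul_of_nonneg_left _ (by positivity)
        apply div_le_div_of_nonneg_right _ (by positivity)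
        exact mul_le_mul_of_nonneg_left hH'2 hk0.le
    _ = (2 * κ / t) * ρ ^ 3 * (y / (Nat.totient k * (κ * Real.log v))) := by
        rw [hyk]
        field_simp
    _ < (2 * κ / t) * a * (y / (Nat.totient k * (κ * Real.log v))) := by
        have hy0 : 0 < y := by
          rw [hyk]
          positivity
        apply mul_lt_mul_of_pos_right _ (by positivity)
        exact mul_lt_mul_of_pos_left hβ3 (by positivity)
    _ = (2 - δ₀) * (y / (Nat.totient k * (κ * Real.log v))) := by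
        rw [ha]
        field_simp
    _ ≤ (2 - δ₀) * (y / (Nat.totient k * Real.log u)) := by
        have hy0 : 0 < y := by
          rw [hyk]
          positivity
        have hδ2 : 0 < 2 - δ₀ := by
          have : 0 < 2 * κ / t := by positivity
          linarith
        apply mul_le_mul_of_nonneg_left _ hδ2.le
        apply div_le_div_of_nonneg_left hy0.le (by positivity)
        exact mul_le_mul_of_nonneg_left hlu2 hφ.le
    _ = (2 - δ₀) * y / (Nat.totient k * Real.log u) := by ring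

/-- **Constant below 2 near the values of multiplicative functions.** Let `f` be multiplicative and positive, of at most
polynomial growth, with `f p ≤ M p` at the large primes, and injective there. Let `G` have steps `≥ a > 0` and growth at most
`v ^ d`. Let `1 / 2 ≤ t < 1`, `0 < η ≤ κ < t`, `c ≥ 0`, `δ₀ < 2 - 2 κ / t`, `θ ≥ 0` and `d (2 t - η + 2 c) + θ < 1`. For every
`U` and all large `X`, for all `m ≤ X` but at most `X / (log X) ^ U`, ALL `k ≥ 1`, `l`, `x ≥ y` with `(l, k) = 1`,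
`|z - G (f m)| ≤ f(m) ^ θ`, `k ≤ z ^ c` and `z ^ η ≤ y / k ≤ z ^ κ`, where `z = (x - y) / k`, satisfy
`N(x, y; k, l) < (2 - δ₀) y / (φ(k) log (y / k))`. Euler's function and the sum of the divisors are examples of such
functions `f`, and `α v ^ d` with `α > 0`, `d ≥ 1` is an example of `G`. -/
theorem result :
    (∀ f : ℕ → ℕ, LM f → ∀ (G : ℕ → ℝ) (d : ℝ), Expanding G d → ∀ t η κ c δ₀ θ : ℝ, 1 / 2 ≤ t → t < 1 →
      0 < η → η ≤ κ → κ < t → 0 ≤ c → δ₀ < 2 - 2 * κ / t → 0 ≤ θ → d * (2 * t - η + 2 * c) + θ < 1 →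
      ∀ U : ℕ, ∃ X₀ : ℕ, ∀ X : ℕ, X₀ ≤ X →
      ({m : ℕ | 1 ≤ m ∧ m ≤ X ∧ ¬ ∀ (k : ℕ) (l : ℤ) (x y : ℝ), 1 ≤ k → y ≤ x → Int.gcd l k = 1 →
        |(x - y) / k - G (f m)| ≤ (f m : ℝ) ^ θ → (k : ℝ) ≤ ((x - y) / k) ^ c →
        ((x - y) / k) ^ η ≤ y / k → y / k ≤ ((x - y) / k) ^ κ →
        (N x y k l : ℝ) < (2 - δ₀) * y / (Nat.totient k * Real.log (y / k))}.ncard : ℝ) ≤
        X / Real.log X ^ U) ∧
    (LM Nat.totient ∧ LM (fun m => ∑ d ∈ m.divisors, d)) ∧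
    ∀ α d : ℝ, 0 < α → 1 ≤ d → Expanding (fun v => α * (v : ℝ) ^ d) d := by
  refine ⟨fun f hf G d hG t η κ c δ₀ θ ht1 ht hη hηκ hκ hc hδ₀ hθ h1 U => ?_, ⟨lm_totient, lm_sigma⟩,
    fun α d hα hd => expanding_pow hα hd⟩
  have hd := hG.one_le
  obtain ⟨γ, hγ⟩ : ∃ γ : ℝ, γ = min ((1 - θ - d * (2 * t - η + 2 * c)) / (2 * d)) (η / 2) := ⟨_, rfl⟩
  have hγ0 : 0 < γ := by
    rw [hγ]
    exact lt_min (div_pos (by linarith) (by linarith)) (by linarith)
  have hγ1 : γ ≤ η / 2 := by rw [hγ]; exact min_le_right _ _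
  have hγ2 : d * γ ≤ (1 - θ - d * (2 * t - η + 2 * c)) / 2 := by
    have h2 : γ ≤ (1 - θ - d * (2 * t - η + 2 * c)) / (2 * d) := by rw [hγ]; exact min_le_left _ _
    calc d * γ ≤ d * ((1 - θ - d * (2 * t - η + 2 * c)) / (2 * d)) :=
          mul_le_mul_of_nonneg_left h2 (by linarith)
      _ = _ := by
          field_simp
  obtain ⟨δ, ρ, M₀, hδ, hρ, hmain⟩ := main_ineq t η (η - γ) κ c δ₀ ht1 ht (by linarith) (by linarith) hηκ hκ hc hδ₀
  have hG' : Expanding (fun v => G v / 2) d := by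
    obtain ⟨-, ⟨a, ha, hstep⟩, ⟨C₁, hC₁⟩⟩ := hG
    refine ⟨hd, ⟨a / 2, by positivity, fun v hv => ?_⟩, ⟨C₁ / 2, fun v hv => ?_⟩⟩
    · have := hstep v hv
      linarith
    · have := hC₁ v hv
      linarith
  obtain ⟨X₀, hX₀⟩ := keep_windows (S t (η - γ) c δ ρ M₀) (fun M : ℕ => (M : ℝ) / 2) hf hG'
    (s := 2 * t - (η - γ) + 2 * c) (κ := θ) (by linarith) hθ (by
      have h3 : d * (2 * t - (η - γ) + 2 * c) = d * (2 * t - η + 2 * c) + d * γ := by ring
      rw [h3]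
      linarith)
    (fun ε hε => countS t (η - γ) c δ ρ ht1 ht (by linarith) hc hδ hρ M₀ ε hε) U
  refine ⟨X₀, fun X hX => le_trans ?_ (hX₀ X hX)⟩
  have hfin : {m : ℕ | 1 ≤ m ∧ m ≤ X ∧ ∃ M ∈ S t (η - γ) c δ ρ M₀,
      |(M : ℝ) / 2 - G (f m) / 2| ≤ (f m : ℝ) ^ θ}.Finite := by
    apply (Set.finite_Icc 1 X).subset
    intro m hm
    exact ⟨hm.1, hm.2.1⟩
  have hsub : {m : ℕ | 1 ≤ m ∧ m ≤ X ∧ ¬ ∀ (k : ℕ) (l : ℤ) (x y : ℝ), 1 ≤ k → y ≤ x → Int.gcd l k = 1 →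
        |(x - y) / k - G (f m)| ≤ (f m : ℝ) ^ θ → (k : ℝ) ≤ ((x - y) / k) ^ c →
        ((x - y) / k) ^ η ≤ y / k → y / k ≤ ((x - y) / k) ^ κ →
        (N x y k l : ℝ) < (2 - δ₀) * y / (Nat.totient k * Real.log (y / k))} ⊆
      {m : ℕ | 1 ≤ m ∧ m ≤ X ∧ ∃ M ∈ S t (η - γ) c δ ρ M₀,
        |(M : ℝ) / 2 - G (f m) / 2| ≤ (f m : ℝ) ^ θ} := by
    rintro m ⟨hm1, hmX, hm⟩
    refine ⟨hm1, hmX, ?_⟩
    push Not at hm
    obtain ⟨k, l, x, y, hk, hyx, hgcd, hz, hkc, hy1, hy2, hN⟩ := hm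
    refine ⟨⌊(x - y) / k⌋₊, ?_, ?_⟩
    · by_contra hcon
      exact absurd (hmain k l x y hk hyx hcon hkc hgcd hy1 hy2) (not_lt.2 hN)
    · have hk0 : (0 : ℝ) < k := by exact_mod_cast hk
      have hz0 : 0 ≤ (x - y) / k := div_nonneg (by linarith) hk0.le
      have h2 := Nat.floor_le hz0
      have h3 := Nat.lt_floor_add_one ((x - y) / k)
      have hf1 : (1 : ℝ) ≤ f m := by exact_mod_cast hf.pos m hm1
      have h4 : (1 : ℝ) ≤ (f m : ℝ) ^ θ := Real.one_le_rpow hf1 hθ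
      obtain ⟨h5, h6⟩ := abs_le.1 hz
      rw [abs_le]
      constructor <;> linarith
  exact_mod_cast Set.ncard_le_ncard hsub hfin

end Pool.Agent.Results.MP_26a8c3_nt.MultiplicativeValues
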