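import Pool.Agent.N193.PS.Near
import Pool.Agent.TH872.GQ.BT

/-!
# The Brun–Titchmarsh inequality with the constant `1` for almost all classes to all moduli near the values of functions
of a non-integral order

From Mathlib: `ContDiffAt ℝ ⊤`: infinitely differentiable at a point; `iteratedDeriv m f`: the derivative of order `m`;
`⌊y⌋₊`: the integer part of `y`, and `0` for `y < 0`.

Method: exponential sums over the values (van der Corput differencing of all orders, discrete Fejer kernel) and the variance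
of the primes in progressions for almost all moduli (`Pool.Agent.N193.PS`, on the library of the starting files); the passage
from the variance to the inequality is from the starting files (`Pool.Agent.TH872.GQ.BT`).
-/

set_option autoImplicit false

namespace Pool.Agent.Results.MP_26a8c3_nt.NonIntegralOrderModuli

open Finset Filter

/-- `f` is smoothly varying of index `c`: it is infinitely differentiable and positive for large arguments, and
`t ^ m f⁽ᵐ⁾(t) / f(t) → c (c - 1) ... (c - m + 1)` for every `m`. -/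
def SmoothlyVarying (c : ℝ) (f : ℝ → ℝ) : Prop :=
  (∃ t₀ : ℝ, ∀ t > t₀, ContDiffAt ℝ ((⊤ : ℕ∞) : WithTop ℕ∞) f t ∧ 0 < f t) ∧
  ∀ m : ℕ, Tendsto (fun t => t ^ m * iteratedDeriv m f t / f t) atTop (nhds (∏ i ∈ range m, (c - i)))

/-- `N(x, y; q, l)` for `0 ≤ y ≤ x` and `0 ≤ l < q`: the number of the primes `p` with `x - y < p ≤ x` and
`p ≡ l (mod q)` -/
noncomputable def cnt (x y : ℝ) (q l : ℕ) : ℕ :=
  ((Ioc ⌊x - y⌋₊ ⌊x⌋₊).filter (fun p => p.Prime ∧ p % q = l)).card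

open Classical in
/-- For all `l` with `0 ≤ l < q` and `gcd(l, q) = 1`, except for at most `φ(q) / (log q) ^ T` of them:
`N(x, y; q, l) ≤ (1 + ε) y / (φ(q) log q)` for ALL real `x`, `y` with `q (log q) ^ C ≤ y ≤ x ≤ q (log q) ^ (C + D)`. -/
def Holds (ε : ℝ) (T C D q : ℕ) : Prop :=
  (((range q).filter (fun l => Nat.Coprime l q ∧ ∃ x y : ℝ, q * Real.log q ^ C ≤ y ∧ y ≤ x ∧
    x ≤ q * Real.log q ^ (C + D) ∧ (1 + ε) * (y / (Nat.totient q * Real.log q)) < cnt x y q l)).card : ℝ) ≤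
    Nat.totient q / Real.log q ^ T

open Pool.Agent.N193.PS

open Classical in
/-- Let `0 < ε ≤ 1`, `D`, `T` and `C ≥ 2 D + T + 2` be fixed, and let `Holds` be the following property of a modulus `q`: for
all reduced classes `l` modulo `q`, except for at most `φ(q) / (log q) ^ T` of them, `N(x, y; q, l) ≤ (1 + ε) y / (φ(q) log q)`
for ALL real `x`, `y` with `q (log q) ^ C ≤ y ≤ x ≤ q (log q) ^ (C + D)`.

**(1)** Let `f` be smoothly varying of an index `c > 0` which is not an integer, and let the integer `κ ≠ 0`, `B`, `U`, `W` and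
`a` be fixed. Let `N` be large, let `x` be such that `f n ≤ N` for the integers `1 ≤ n ≤ x` and `N ≤ f x log ^ a N`, and let
`|c₀| ≤ B N`. Then all the integers `1 ≤ n ≤ x`, with at most `x / log ^ U N` exceptions, are such that ALL the moduli `q ≥ 1`
with `|q - (c₀ + κ ⌊f n⌋)| ≤ log ^ W N` have the property `Holds`.

**(2)** Part (1) applies to all the functions `f t = ∑ a z t ^ z.1 (log t) ^ z.2` (finite sums) with a leading term `z₀`
whose coefficient is positive and whose exponent `c = z₀.1` is positive and not an integer; for example to `n ^ c`. -/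
theorem result :
    (∀ (ε : ℝ), 0 < ε → ε ≤ 1 → ∀ C D T : ℕ, 2 * D + T + 2 ≤ C →
      ∀ (c : ℝ) (f : ℝ → ℝ), 0 < c → (∀ m : ℕ, c ≠ m) → SmoothlyVarying c f → ∀ (κ : ℤ), κ ≠ 0 → ∀ (B U W a : ℕ),
      ∃ N₀ : ℕ, ∀ N : ℕ, N₀ ≤ N → ∀ x : ℕ,
      (∀ n ∈ Icc 1 x, f n ≤ N) → (N : ℝ) ≤ Real.log N ^ a * f x → ∀ c₀ : ℤ, |c₀| ≤ B * N →
        (((Icc 1 x).filter fun n : ℕ => ¬ ∀ q : ℕ, 0 < q → ((|(q : ℤ) - (c₀ + κ * (⌊f n⌋₊ : ℕ))| : ℤ) : ℝ) ≤ Real.log N ^ W →
          Holds ε T C D q).card : ℝ) ≤ x / Real.log N ^ U) ∧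
    (∀ (F : Finset (ℝ × ℝ)) (a : ℝ × ℝ → ℝ) (z₀ : ℝ × ℝ), z₀ ∈ F → 0 < a z₀ →
      (∀ z ∈ F, z ≠ z₀ → z.1 < z₀.1 ∨ z.1 = z₀.1 ∧ z.2 < z₀.2) →
      SmoothlyVarying z₀.1 (fun t => ∑ z ∈ F, a z * t ^ z.1 * Real.log t ^ z.2)) := by
  refine ⟨fun ε hε hε1 C D T hC c f hc hn hf κ hκ B U W a => ?_, fun F a z₀ h1 h2 h3 => gp_sv F a z₀ h1 h2 h3⟩
  obtain ⟨Q₀, hdet⟩ := Pool.Agent.TH872.GQ.BT.det ε hε hε1 C D T hC
  obtain ⟨J, hJ⟩ : ∃ J, J = B + κ.natAbs + 1 := ⟨_, rfl⟩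
  obtain ⟨N₀, h0⟩ := sv_var_near c f hc hn hf κ hκ B (C + D + 2) U W a 1 one_pos le_rfl
  obtain ⟨N₁, h1⟩ := ev_near W
  obtain ⟨N₂, h2⟩ := Pool.Agent.H373R2.T7.ev_L' (Real.log J + (2 : ℝ) ^ (C + D + 1))
  refine ⟨N₀ + N₁ + N₂ + (Q₀ + 2) ^ 2, fun N hN x hup hlow c₀ hc₀ => ?_⟩
  obtain ⟨g1, g2⟩ := h1 N (by omega)
  have g3 := h2 N (by omega)
  have hN1 : 1 ≤ N := by
    have : 0 < (Q₀ + 2) ^ 2 := by positivity
    omega
  have hN0 : (0 : ℝ) < N := by exact_mod_cast hN1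
  have hJ0 : (0 : ℝ) < J := by rw [hJ]; positivity
  refine le_trans (Nat.cast_le.2 (card_le_card fun n hn => ?_))
    (h0 N (by omega) x hup hlow c₀ hc₀ (fun Q => Q ≤ J * N → Holds ε T C D Q) ?_)
  · rw [mem_filter] at hn ⊢
    refine ⟨hn.1, fun hcon => hn.2 fun q hq hd => ?_⟩
    have h4 := hcon q hd (by exact_mod_cast hq)
    rw [Int.toNat_natCast] at h4
    apply h4
    have h5 : ((⌊f n⌋₊ : ℕ) : ℝ) ≤ N := by
      rcases le_or_gt 0 (f n) with h6 | h6
      · exact (Nat.floor_le h6).trans (hup n hn.1)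
      · rw [Nat.floor_of_nonpos h6.le]
        simp
    have h6 : (|(q : ℤ) - (c₀ + κ * (⌊f n⌋₊ : ℕ))| : ℤ) ≤ N := by
      have : ((|(q : ℤ) - (c₀ + κ * (⌊f n⌋₊ : ℕ))| : ℤ) : ℝ) ≤ ((N : ℤ) : ℝ) := by
        rw [Int.cast_natCast]
        exact hd.trans g2
      exact_mod_cast this
    have h7 : |κ * ((⌊f n⌋₊ : ℕ) : ℤ)| ≤ κ.natAbs * N := by
      rw [abs_mul, Int.abs_eq_natAbs κ, Nat.abs_cast]
      have : ⌊f n⌋₊ ≤ N := by exact_mod_cast h5
      exact_mod_cast Nat.mul_le_mul_left _ this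
    have h8 : (q : ℤ) ≤ J * N := by
      have e1 := (abs_le.1 h6).2
      have e2 := (abs_le.1 hc₀).2
      have e3 := (abs_le.1 h7).2
      rw [hJ]
      push_cast at e1 e2 e3 ⊢
      linarith
    exact_mod_cast h8
  · intro Q hQN hQ hQJ
    have hQ0 : Q₀ + 2 ≤ Q := by
      have e1 : (Q₀ + 2) ^ 2 ≤ N := by omega
      have e2 : (((Q₀ + 2) ^ 2 : ℕ) : ℝ) ≤ (Q : ℝ) ^ 2 := le_trans (by exact_mod_cast e1) hQN
      have e3 : (Q₀ + 2) ^ 2 ≤ Q ^ 2 := by exact_mod_cast e2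
      exact (Nat.pow_le_pow_iff_left (by norm_num)).1 e3
    have hQpos : (0 : ℝ) < Q := by exact_mod_cast (by omega : 0 < Q)
    have hlogQ0 : 0 ≤ Real.log Q := Real.log_natCast_nonneg _
    have hlogQ : Real.log Q ≤ 2 * Real.log N := by
      have e1 : Real.log Q ≤ Real.log (J * N) := Real.log_le_log hQpos (by exact_mod_cast hQJ)
      rw [Real.log_mul hJ0.ne' hN0.ne'] at e1
      have e2 : (0 : ℝ) ≤ 2 ^ (C + D + 1) := by positivity
      linarith
    have hpow : Real.log Q ^ (C + D + 1) ≤ Real.log N ^ (C + D + 2) := by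
      have e0 : 0 ≤ Real.log N := by linarith
      calc Real.log Q ^ (C + D + 1) ≤ (2 * Real.log N) ^ (C + D + 1) := pow_le_pow_left₀ hlogQ0 hlogQ _
        _ = 2 ^ (C + D + 1) * Real.log N ^ (C + D + 1) := mul_pow _ _ _
        _ ≤ Real.log N * Real.log N ^ (C + D + 1) := by
            apply mul_le_mul_of_nonneg_right _ (by positivity)
            have : 0 ≤ Real.log J := Real.log_natCast_nonneg _
            linarith
        _ = _ := by ring
    refine hdet Q (by omega) fun y hy1 hy2 => ?_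
    have e1 := hQ y hy1 (hy2.trans (mul_le_mul_of_nonneg_left hpow hQpos.le))
    have e2 := (abs_le.1 e1).2
    show Pool.Agent.TH894.PV.G y Q ≤ 2 * (y * Real.log Q)
    linarith

end Pool.Agent.Results.MP_26a8c3_nt.NonIntegralOrderModuli
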