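import Pool.Agent.N384.MQ.Mult
import Pool.Agent.N384.MQ.Ex
import Pool.Agent.N384.MQ.Quot
import Pool.Agent.N469.TL.BT

/-!
# The Brun–Titchmarsh inequality with the constant `1` for almost all classes, for all the multiples of moduli near residues
with small Fourier coefficients

From Mathlib: `ZMod.stdAddChar`: the additive character `j ↦ exp (2 π i j / M)` of the integers modulo `M`; `ZMod.val`: the
least residue.

Method: a family of residues modulo `M` with small Fourier coefficients has small exponential sums at all real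
frequencies which are not close to integers, its least residues are not concentrated on short intervals, and the large
spectrum of all their multiples is thin. The passage from such exponential sums to the variance for all the multiples
of almost all moduli is from the starting files
(`Pool.Agent.Y958`, `Pool.Agent.Y885`) and helper625 (`Pool.Agent.N625.PT`). The fixed exponent `V` comes from a compactness
argument. Examples: a lemma of Ajtai, Iwaniec, Komlos, Pintz and Szemeredi on quotients by small primes, the Stepanov type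
lemma of Heath-Brown and Konyagin for subgroups (library `H435R3.HBK`, `N825.FC`), and Weyl sums without losses (library
`H373R2.NB`).
The passage from the variance to the number of primes in all the intervals is `Pool.Agent.N469.TL.BT.det` (helper469, from
the starting file `TH872.GQ.BT`).
-/

set_option autoImplicit false

namespace Pool.Agent.Results.MP_26a8c3_nt.ResidueFamilies

open Finset Filter

/-- The Fourier coefficients of the residues `y i`, `i ∈ s`, modulo `q` at the nonzero frequencies are at most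
`η` times the number of the residues: `|∑ i ∈ s, e(h y_i / q)| ≤ η |s|` for all `h ≠ 0` modulo `q`. -/
def Flat {ι : Type} (q : ℕ) [NeZero q] (η : ℝ) (s : Finset ι) (y : ι → ZMod q) : Prop :=
  ∀ h : ZMod q, h ≠ 0 → ‖∑ i ∈ s, (ZMod.stdAddChar (h * y i) : ℂ)‖ ≤ η * s.card

/-- `N(x, y; q, l)` for `0 ≤ y ≤ x` and `0 ≤ l < q`: the number of the primes `p` with `x - y < p ≤ x` and
`p ≡ l (mod q)` -/
noncomputable def cnt (x y : ℝ) (q l : ℕ) : ℕ :=
  ((Ioc ⌊x - y⌋₊ ⌊x⌋₊).filter (fun p => p.Prime ∧ p % q = l)).card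

open Classical in
/-- For all `l` with `0 ≤ l < q` and `gcd(l, q) = 1`, except for at most `φ(q) / (log q) ^ T` of them:
`N(x, y; q, l) ≤ (1 + ε) y / (φ(q) log q)` for ALL real `x`, `y` with `q (log q) ^ C ≤ y ≤ x ≤ q (log q) ^ (C + D)`. -/
def Holds (ε : ℝ) (T C D q : ℕ) : Prop :=
  (((range q).filter (fun l => Nat.Coprime l q ∧ ∃ x y : ℝ, q * Real.log q ^ C ≤ y ∧ y ≤ x ∧
    x ≤ q * Real.log q ^ (C + D) ∧ (1 + ε) * (y / (Nat.totient q * Real.log q)) < cnt x y q l)).card : ℝ) ≤
    Nat.totient q / Real.log q ^ T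

open Classical in
/-- **(1)** Let `0 < ε ≤ 1`, `D`, `T` and `C ≥ 2 D + T + 2` be fixed, and let `Holds` be the following property of a modulus
`d`: for all reduced classes `l` modulo `d`, except for at most `φ(d) / (log d) ^ T` of them,
`N(x, y; d, l) ≤ (1 + ε) y / (φ(d) log d)` for ALL real `x`, `y` with `d (log d) ^ C ≤ y ≤ x ≤ d (log d) ^ (C + D)`. Let also
`κ ≠ 0`, `J`, `U`, `W` and `a` be fixed. There is a number `V` such that the following holds for all large integers `M`. Let
`y i`, `i ∈ s`, be a finite family of residues modulo `M` whose Fourier coefficients at the nonzero frequencies are at most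
`|s| / log ^ V M`, and let `|c| ≤ M log ^ a M`. Then all the `i ∈ s`, with at most `|s| / log ^ U M` exceptions, have the
following property: ALL the multiples `d = h q` with `1 ≤ h ≤ log ^ J M` of ALL the integers `q ≥ 1` with
`|q - (c + κ y_i)| ≤ log ^ W M` (with the least residue `0 ≤ y_i < M`) satisfy `Holds`.

**(2)**, **(3)** Examples. The condition of (1) holds modulo all large primes `p` for:
* the quotients `j / r` of the integers `0 ≤ j < S` by the primes `r ≤ R`, if `log ^ (V + 4) p ≤ R < p` and `R ^ 2 ≤ S`; thus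
  there are such explicit sets with only `log ^ (3 V + 12) p` members, in the short intervals around almost all members
  of which (and around almost all members of all their translates) all the moduli have this property;
* the cosets of all subgroups of the multiplicative group of an order of at least `p ^ (3/8) log ^ (3 V + 1) p`;
* the residues `a b + g(a) + k(b)`, `a ∈ A`, `b ∈ B`, for arbitrary sets with `|A| |B| ≥ p log ^ (2 V) p` and arbitrary
  functions `g` and `k`;
* the values `f(n)`, `0 ≤ n < x`, of all integer polynomials of degree `d` whose leading coefficient is not divisible by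
  `p`, if `x ^ d ≥ p log ^ C p`, where `C` depends on `d` and `V`. -/
theorem result :
    (∀ (ε : ℝ), 0 < ε → ε ≤ 1 → ∀ C D T : ℕ, 2 * D + T + 2 ≤ C → ∀ (κ : ℤ), κ ≠ 0 → ∀ (J U W a : ℕ), ∃ V M₀ : ℕ,
      ∀ M : ℕ, M₀ ≤ M → ∀ [NeZero M] (ι : Type) (s : Finset ι) (y : ι → ZMod M), Flat M (1 / Real.log M ^ V) s y →
      ∀ c : ℤ, |(c : ℝ)| ≤ M * Real.log M ^ a →
        ((s.filter fun i => ¬ ∀ q : ℕ, 1 ≤ q → |(q : ℝ) - (c + κ * ((y i).val : ℕ))| ≤ Real.log M ^ W →
          ∀ h : ℕ, 1 ≤ h → (h : ℝ) ≤ Real.log M ^ J → Holds ε T C D (h * q)).card : ℝ) ≤ s.card / Real.log M ^ U) ∧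
    (∀ V : ℕ, ∃ P₀ : ℕ, ∀ p : ℕ, P₀ ≤ p → ∀ [Fact p.Prime],
      (∀ R S : ℕ, Real.log p ^ (V + 4) ≤ R → R < p → R ^ 2 ≤ S →
        Flat p (1 / Real.log p ^ V) (((Icc 1 R).filter Nat.Prime) ×ˢ range S)
          (fun z => ((z.2 : ℕ) : ZMod p) * ((z.1 : ℕ) : ZMod p)⁻¹)) ∧
      (∀ (H : Subgroup (ZMod p)ˣ) (s : Finset (ZMod p)ˣ), (∀ u, u ∈ s ↔ u ∈ H) →
        (p : ℝ) ^ (3 / 8 : ℝ) * Real.log p ^ (3 * V + 1) ≤ s.card → ∀ x : ZMod p, x ≠ 0 →
        Flat p (1 / Real.log p ^ V) s (fun u => x * (u : ZMod p))) ∧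
      (∀ (A B : Finset (ZMod p)) (g k : ZMod p → ZMod p), (p : ℝ) * Real.log p ^ (2 * V) ≤ A.card * B.card →
        Flat p (1 / Real.log p ^ V) (A ×ˢ B) (fun z => z.1 * z.2 + g z.1 + k z.2))) ∧
    (∀ d V : ℕ, 1 ≤ d → ∃ C P₀ : ℕ, ∀ p : ℕ, P₀ ≤ p → ∀ [Fact p.Prime] (f : Polynomial ℤ), f.natDegree = d →
      ¬ (p : ℤ) ∣ f.leadingCoeff → ∀ x : ℕ, (p : ℝ) * Real.log p ^ C ≤ (x : ℝ) ^ d →
      Flat p (1 / Real.log p ^ V) (range x) (fun n => ((f.eval (n : ℤ) : ℤ) : ZMod p))) := by
  refine ⟨fun ε hε hε1 C D T hC κ hκ J U W a => ?_, fun V => ?_, fun d V hd => ?_⟩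
  · obtain ⟨Q₀, h⟩ := Pool.Agent.N469.TL.BT.det ε hε hε1 C D T hC
    obtain ⟨V, M₀, h1⟩ := Pool.Agent.N384.MQ.mq_varT κ hκ J W (C + D + 1) U a 1 one_pos le_rfl (Holds ε T C D) Q₀
      (fun q hq hvar => h q hq fun x hx1 hx2 => by
        have h1 := (abs_le.1 (hvar x hx1 hx2)).2
        linarith)
    exact ⟨V, M₀, fun M hM _ ι s y hf c hc => h1 M hM ι s y hf c hc⟩
  · obtain ⟨P₁, h1⟩ := Pool.Agent.N384.MQ.flat_quot V
    obtain ⟨P₂, h2⟩ := Pool.Agent.N384.MQ.flat_coset V
    obtain ⟨P₃, h3⟩ := Pool.Agent.N384.MQ.flat_prod V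
    exact ⟨P₁ + P₂ + P₃, fun p hp _ => ⟨fun R S => h1 p (by omega) R S, fun H s => h2 p (by omega) H s,
      fun A B g k => h3 p (by omega) A B g k⟩⟩
  · exact Pool.Agent.N384.MQ.flat_poly d V hd

end Pool.Agent.Results.MP_26a8c3_nt.ResidueFamilies
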