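import Pool.Agent.N469.TL.BT

/-!
# The Brun–Titchmarsh inequality with the constant `1` for almost all classes, for almost all smooth moduli

Nothing is used besides Mathlib in the statement.

The proof combines an elementary bound for the exponential sum over the integers composed of primes from a given set
(`Pool.Agent.N469.SQ.exp_alt`: it is large only near few rational numbers with small denominators) with the argument of
the starting files for the variance over random moduli (`Pool.Agent.Y958.RM.main`) and the passage from the variance to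
the number of primes in all the intervals (`Pool.Agent.N469.TL.BT.det`, from `TH872.GQ.BT`).
-/

set_option autoImplicit false

namespace Pool.Agent.Results.MP_26a8c3_nt.SmoothModuli

open Finset

/-- `N(x, y; q, l)` for `0 ≤ y ≤ x` and `0 ≤ l < q`: the number of the primes `p` with `x - y < p ≤ x` and
`p ≡ l (mod q)` -/
noncomputable def cnt (x y : ℝ) (q l : ℕ) : ℕ :=
  ((Ioc ⌊x - y⌋₊ ⌊x⌋₊).filter (fun p => p.Prime ∧ p % q = l)).card

open Classical in
/-- For all `l` with `0 ≤ l < q` and `gcd(l, q) = 1`, except for at most `φ(q) / (log q) ^ T` of them: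
`N(x, y; q, l) ≤ (1 + ε) y / (φ(q) log q)` for ALL real `x`, `y` with `q (log q) ^ C ≤ y ≤ x ≤ q (log q) ^ (C + D)`. -/
def Holds (ε : ℝ) (T C D q : ℕ) : Prop :=
  (((range q).filter (fun l => Nat.Coprime l q ∧ ∃ x y : ℝ, q * Real.log q ^ C ≤ y ∧ y ≤ x ∧
    x ≤ q * Real.log q ^ (C + D) ∧ (1 + ε) * (y / (Nat.totient q * Real.log q)) < cnt x y q l)).card : ℝ) ≤
    Nat.totient q / Real.log q ^ T

/-- The integers `1 ≤ v ≤ N` all of whose prime factors belong to `P`. -/
def composedOf (P : Finset ℕ) (N : ℕ) : Finset ℕ := (Icc 1 N).filter fun v => v.primeFactors ⊆ P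

/-- The `y`-smooth integers `1 ≤ v ≤ N`: the integers all of whose prime factors are at most `y`. -/
def smooth (y N : ℕ) : Finset ℕ := (Icc 1 N).filter fun v => ∀ p ∈ v.primeFactors, p ≤ y

open Classical in
/-- **The Brun–Titchmarsh inequality with the constant 1 for almost all classes to smooth moduli.** Let `0 < ε ≤ 1`, `D`,
`T` and `C ≥ 2 D + T + 2` be fixed, and let `Holds` be the following property of a modulus `q`: for all reduced classes `l`
modulo `q`, except for at most `φ(q) / (log q) ^ T` of them, `N(x, y; q, l) ≤ (1 + ε) y / (φ(q) log q)` for ALL real `x`,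
`y` with `q (log q) ^ C ≤ y ≤ x ≤ q (log q) ^ (C + D)`. Let also `A`, `U`, `K`, `B`, the integer `κ ≠ 0` and `δ > 0` be
fixed, let `N` be large, `1 ≤ y ≤ log ^ K N`, and let `c` be an arbitrary integer with `|c| ≤ B N`.

(1) Let `P` be an arbitrary set of primes which are at most `y`, with at least `y ^ (1 / 2 + δ) log N` elements. Then
for all the integers `v ≤ N` composed of primes from `P`, up to a proportion of at most `1 / log ^ U N` of them, ALL the
moduli `q > 0` with `|q - (c + κ v)| ≤ log ^ A N` have the property `Holds`. (There can be as few as about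
`N ^ (1 / 2 + δ)` such integers `v`.)

(2) In particular this holds for all the `y`-smooth integers `v ≤ N`, up to a proportion of at most `1 / log ^ U N` of them,
if `y ≥ log ^ (2 + δ) N`. -/
theorem result (ε : ℝ) (hε : 0 < ε) (hε1 : ε ≤ 1) (C D T : ℕ) (hC : 2 * D + T + 2 ≤ C) (A U K B : ℕ) (κ : ℤ) (hκ : κ ≠ 0)
    (δ : ℝ) (hδ : 0 < δ) :
    ∃ N₀ : ℕ, ∀ N, N₀ ≤ N → ∀ y : ℕ, 1 ≤ y → (y : ℝ) ≤ Real.log N ^ K → ∀ c : ℤ, |c| ≤ B * N →
      (∀ P : Finset ℕ, (∀ p ∈ P, p.Prime ∧ p ≤ y) → (y : ℝ) ^ (1 / 2 + δ) * Real.log N ≤ P.card →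
        (((composedOf P N).filter fun v : ℕ => ∃ q : ℕ, 0 < q ∧ |((q - (c + κ * v) : ℤ) : ℝ)| ≤ Real.log N ^ A ∧
          ¬ Holds ε T C D q).card : ℝ) ≤ ((composedOf P N).card : ℝ) / Real.log N ^ U) ∧
      (Real.log N ^ (2 + δ) ≤ y →
        (((smooth y N).filter fun v : ℕ => ∃ q : ℕ, 0 < q ∧ |((q - (c + κ * v) : ℤ) : ℝ)| ≤ Real.log N ^ A ∧
          ¬ Holds ε T C D q).card : ℝ) ≤ ((smooth y N).card : ℝ) / Real.log N ^ U) := by
  obtain ⟨N₀, h0⟩ := Pool.Agent.N469.TL.both δ hδ K U _ (Pool.Agent.N469.TL.sm_var κ hκ K B A (C + D + 1) U 1 one_pos le_rfl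
    (fun q => Holds ε T C D q) (by
      obtain ⟨Q₀, h⟩ := Pool.Agent.N469.TL.BT.det ε hε hε1 C D T hC
      refine ⟨Q₀, fun q hq hvar => h q hq fun x hx1 hx2 => ?_⟩
      have h1 := (abs_le.1 (hvar x hx1 hx2)).2
      linarith))
  refine ⟨N₀, fun N hN y hy hy' c hc => ?_⟩
  refine h0 N hN y hy hy' (fun v : ℕ => ∃ q : ℕ, 0 < q ∧ |((q - (c + κ * v) : ℤ) : ℝ)| ≤ Real.log N ^ A ∧
          ¬ Holds ε T C D q) (fun v => inferInstance) ⟨c, hc, fun v hv => ?_⟩
  obtain ⟨q, hq0, hq, hbad⟩ := hv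
  have e0 : c + κ * (v : ℤ) + ((q : ℤ) - (c + κ * v)) = q := by ring
  refine ⟨(q : ℤ) - (c + κ * v), hq, by rw [e0]; exact_mod_cast hq0, ?_⟩
  rw [e0, Int.toNat_natCast]
  exact hbad

end Pool.Agent.Results.MP_26a8c3_nt.SmoothModuli
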